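import Pool.Agent.W2helper73.CC.Cmp
import Pool.Agent.W2helper73.CC.Che

/-!
# An algorithm that finds the group of the rational points of `X³ + Y³ = A` for numbers `A = 3 M m³`

`C_A : X³ + Y³ = A Z³`.  Here `M ≠ 1` is a number without a cube factor, all prime factors of which are
`1` modulo `3`.  The number `3 M` splits if it is a product `d₀ d₁ d₂` of coprime factors, at least two
of them not `1`, such that `d₁ d₂²`, `d₂ d₀²`, `d₀ d₁²` are cubes modulo the primes dividing `d₀`, `d₁`,
`d₂` respectively (this is no condition at the prime `3`).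

Theorem.  If `3 M` does not split, then the point at infinity is the only rational point of
`X³ + Y³ = A` for all `A = ± 3 M m³`; so the empty set is a generating set and `r(A) = 0`.  Moreover the
curve `E : y² + 3 M y = x³`, which is `3`-isogenous to `X³ + Y³ = 3 M`, has only finitely many rational
points, the power of `3` in their number is `3`, and `Ш(E/ℚ)[3^∞] = 0`.

There is an algorithm, halting on all natural numbers `A`, which finds out if `A` is of this kind.

Let `S` be a set of primes such that `3` is not a cube modulo at least a positive proportion of the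
primes `p ≤ Y` with `p ∈ S` and `p ≡ 1` modulo `3` (this is true for the set of all primes), and `k ≥ 1`.
The number of the squarefree `M ≤ X` with exactly `k` prime factors, all in `S` and `1` modulo `3`, for
which `3` is not a cube modulo all of them, has the order of magnitude `X (log log X)^(k - 1) / log X`
(if `3` is a cube modulo all of them then `3 M` splits).  The proportion of those for which the
algorithm answers yes for `A = 3 M` tends to `∏_{1 ≤ i ≤ k - 1} (1 - 3^{-i})`: `1`, `2/3`, `16/27`, …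

The proof.  The descent for the multiplication by `1 - ω` on the twists over `ℚ(ω)`; the primes `λ = 1 - ω`
and the prime factors of `3 M` are the vertices of a graph labelled by the cubic residue symbols, and the
Selmer group is zero if the only solutions of the corresponding linear system are the trivial ones.  The
local condition at the prime above `3` is new with respect to the starting files, which are about numbers
prime to `3`.  The proportion: large sieve for cubic symbols (starting files), the vertex `3` with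
prescribed labels is new.  The density of the primes modulo which `3` is not a cube: Chebotarev's density
theorem (starting files) for the field `ℚ(ω, ∛3)`.
-/

set_option autoImplicit false

open Finset Filter Topology

namespace Pool.Agent.Results.MP_8e0b0b_nt.TwistsDivisibleByThree

/-- `M ≠ 0, 1` is not divisible by the cube of a prime, and all its prime factors are `1` modulo `3`. -/
def InClass (M : ℕ) : Prop :=
  M ≠ 0 ∧ M ≠ 1 ∧ (∀ p : ℕ, p.Prime → ¬ p ^ 3 ∣ M) ∧ ∀ p : ℕ, p.Prime → p ∣ M → p % 3 = 1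

/-- In every factorization of `N` in coprime factors `d₀ d₁ d₂` for which `d₁ d₂²`, `d₂ d₀²`,
`d₀ d₁²` are cubes modulo the primes dividing `d₀`, `d₁`, `d₂` respectively, two factors are `1`. -/
def HasNoSplitting (N : ℕ) : Prop :=
  ∀ d : ZMod 3 → ℕ, ∏ c, d c = N → (∀ c c', c ≠ c' → Nat.Coprime (d c) (d c')) →
    (∀ (c : ZMod 3) (p : ℕ), p.Prime → p ∣ d c →
      ∃ x : ℤ, (p : ℤ) ∣ (d (c + 1) : ℤ) * (d (c + 2) : ℤ) ^ 2 - x ^ 3) →
    ∃ c, ∀ c', c' ≠ c → d c' = 1

/-- The point at infinity is the only rational point of `X³ + Y³ = A`. -/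
def OnlyInfinity (A : ℤ) : Prop := ∀ X Y : ℚ, X ^ 3 + Y ^ 3 ≠ A

/-- The curve `y² + N y = x³` over `ℚ`. -/
def twist (N : ℕ) : WeierstrassCurve ℚ := ⟨0, 0, (N : ℚ), 0, 0⟩

/-- The group of the rational points of `y² + N y = x³` is finite, the power of `3` in its order is `3`,
and the `3`-primary part of the Tate-Shafarevich group is zero. -/
def TrivialThree (N : ℕ) : Prop :=
  Finite (twist N).toAffine.Point ∧ padicValNat 3 (Nat.card (twist N).toAffine.Point) = 1 ∧
    ∀ (n : ℕ) (x : Pool.Agent.TH841.SH.D.Sha (twist N)), 3 ^ n • x = 0 → x = 0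

/-- `3` is not a cube modulo `p`. -/
def NonCube (p : ℕ) : Prop := ¬ ∃ x : ℤ, (p : ℤ) ∣ 3 - x ^ 3

/-- `M` is squarefree, has exactly `k` prime factors, all in `S` and `1` modulo `3`, and `3` is not a
cube modulo at least one of them. -/
def Family (S : Set ℕ) (k M : ℕ) : Prop :=
  Squarefree M ∧ M.primeFactors.card = k ∧ (∀ p : ℕ, p.Prime → p ∣ M → p ∈ S ∧ p % 3 = 1) ∧
    ∃ p : ℕ, p.Prime ∧ p ∣ M ∧ NonCube p

/-- At least a positive proportion of the primes up to `Y` is in `S`, is `1` modulo `3` and has `3` as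
a cubic nonresidue, for all large `Y`. -/
def Rich (S : Set ℕ) : Prop := ∃ (δ : ℝ) (Y₀ : ℕ), 0 < δ ∧ ∀ Y : ℕ, Y₀ ≤ Y →
  δ * (Y / Real.log Y) ≤
    (Nat.card {p : ℕ // p ≤ Y ∧ p ∈ S ∧ p.Prime ∧ p % 3 = 1 ∧ NonCube p} : ℝ)

/-- the number of the `M` with `1 ≤ M ≤ X` and `Q M` -/
noncomputable def count (Q : ℕ → Prop) (X : ℕ) : ℕ := Nat.card {M : ℕ // 1 ≤ M ∧ M ≤ X ∧ Q M}

/-- The number of the `M` with `1 ≤ M ≤ X` and `Q M` has the order of magnitude
`X (log log X)^j / log X`. -/
def Size (Q : ℕ → Prop) (j : ℕ) : Prop :=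
  ∃ (c C : ℝ) (X₀ : ℕ), 0 < c ∧ 0 < C ∧ ∀ X : ℕ, X₀ ≤ X →
    c * (X * Real.log (Real.log X) ^ j / Real.log X) ≤ (count Q X : ℝ) ∧
    (count Q X : ℝ) ≤ C * (X * Real.log (Real.log X) ^ j / Real.log X)

/-- The proportion of the `M` with `g (3 * M) = true` among the `M ≤ X` with `Q M` tends to `t`. -/
def Share (g : ℕ → Bool) (Q : ℕ → Prop) (t : ℝ) : Prop :=
  Tendsto (fun X : ℕ => (count (fun M => Q M ∧ g (3 * M) = true) X : ℝ) / (count Q X : ℝ)) atTop (𝓝 t)

/-! ### proofs -/

theorem class_iff (M : ℕ) : InClass M ↔ Pool.Agent.W2helper73.CC.ClC M := by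
  unfold InClass Pool.Agent.W2helper73.CC.ClC Pool.Agent.Y703.CT.Base
  constructor
  · rintro ⟨h1, h2, h3, h4⟩
    refine ⟨⟨h1, fun h => ?_, h3⟩, h2, h4⟩
    have := h4 3 Nat.prime_three h
    omega
  · rintro ⟨⟨h1, -, h3⟩, h2, h4⟩
    exact ⟨h1, h2, h3, h4⟩

theorem tst_iff (A : ℕ) : Pool.Agent.W2helper73.CC.Tst A ↔
    ∃ M m : ℕ, m ≠ 0 ∧ A = 3 * M * m ^ 3 ∧ InClass M ∧ HasNoSplitting (3 * M) := by
  unfold Pool.Agent.W2helper73.CC.Tst
  simp only [class_iff]
  exact Iff.rfl

theorem twist_eq (N : ℕ) : Pool.Agent.Y703.CT.EQ (Pool.Agent.Y703.CT.WD ((N : ℕ) : ℤ)) = twist N := by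
  unfold Pool.Agent.Y703.CT.EQ Pool.Agent.Y703.CT.WD twist WeierstrassCurve.map
  simp

theorem trivial_of {M : ℕ} (h : InClass M) (hN : HasNoSplitting (3 * M)) : TrivialThree (3 * M) := by
  have h1 := Pool.Agent.W2helper73.CC.triv3C ((class_iff M).1 h) hN
  unfold TrivialThree
  rw [← twist_eq]
  exact h1

theorem count_eq (Q : ℕ → Prop) [DecidablePred Q] (X : ℕ) :
    count Q X = ((Icc 1 X).filter Q).card := by
  unfold count
  rw [← Fintype.card_coe, ← Nat.card_eq_fintype_card]
  refine Nat.card_congr (Equiv.subtypeEquivRight fun p => ?_)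
  rw [Finset.mem_filter, Finset.mem_Icc, and_assoc]

theorem lam_iff {p : ℕ} (hp : p.Prime) (h1 : p % 3 = 1) :
    Pool.Agent.Y703.CX.lam p 3 ≠ 0 ↔ NonCube p := by
  have hnd : ¬ p ∣ 3 := by
    intro h
    have := (Nat.prime_dvd_prime_iff_eq hp Nat.prime_three).1 h
    omega
  have h2 := Pool.Agent.Y333.CX.t_LAM.cube p 3 hp h1 hnd
  unfold NonCube
  rw [Ne, h2]
  push_cast
  exact Iff.rfl

theorem fam_iff (S : Set ℕ) (k M : ℕ) :
    Family S k M ↔ Pool.Agent.W2helper73.CC.Fam (fun p => p ∈ S) k M := by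
  unfold Family Pool.Agent.W2helper73.CC.Fam Pool.Agent.W2helper73.CC.Cn
    Pool.Agent.W2helper73.CC.Wc Pool.Agent.W2helper73.CC.Bd
  constructor
  · rintro ⟨h1, h2, h3, p, hp, hpM, hc⟩
    refine ⟨h1, fun q hq => ?_, h2, p, Nat.mem_primeFactors.2 ⟨hp, hpM, h1.ne_zero⟩,
      (lam_iff hp (h3 p hp hpM).2).2 hc⟩
    have h4 := h3 q (Nat.prime_of_mem_primeFactors hq) (Nat.dvd_of_mem_primeFactors hq)
    exact ⟨h4.1, Nat.prime_of_mem_primeFactors hq, h4.2⟩
  · rintro ⟨h1, h2, h3, p, hp, hc⟩
    have hpp := Nat.prime_of_mem_primeFactors hp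
    refine ⟨h1, h3, fun q hq hqM => ?_, p, hpp, Nat.dvd_of_mem_primeFactors hp,
      (lam_iff hpp (h2 p hp).2.2).1 hc⟩
    have h4 := h2 q (Nat.mem_primeFactors.2 ⟨hq, hqM, h1.ne_zero⟩)
    exact ⟨h4.1, h4.2.2⟩

theorem rich_iff (S : Set ℕ) : Rich S ↔ Pool.Agent.W2helper73.CC.Rich fun p => p ∈ S := by
  classical
  unfold Rich Pool.Agent.W2helper73.CC.Rich Pool.Agent.V11291.FK.Dn Pool.Agent.W2helper73.CC.Bd
  have h : ∀ Y : ℕ, Nat.card {p : ℕ // p ≤ Y ∧ p ∈ S ∧ p.Prime ∧ p % 3 = 1 ∧ NonCube p} =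
      ((range (Y + 1)).filter fun p => (p ∈ S ∧ p.Prime ∧ p % 3 = 1) ∧
        Pool.Agent.Y703.CX.lam p 3 ≠ 0).card := by
    intro Y
    rw [← Fintype.card_coe, ← Nat.card_eq_fintype_card]
    refine Nat.card_congr (Equiv.subtypeEquivRight fun p => ?_)
    rw [Finset.mem_filter, Finset.mem_range, Nat.lt_succ_iff]
    refine and_congr_right fun _ => ?_
    constructor
    · rintro ⟨h1, h2, h3, h4⟩
      exact ⟨⟨h1, h2, h3⟩, (lam_iff h2 h3).2 h4⟩
    · rintro ⟨⟨h1, h2, h3⟩, h4⟩
      exact ⟨h1, h2, h3, (lam_iff h2 h3).1 h4⟩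
  simp only [h]

theorem splits_of {M : ℕ} (h : InClass M) (hc : ∀ p : ℕ, p.Prime → p ∣ M → ¬ NonCube p) :
    ¬ HasNoSplitting (3 * M) := by
  intro hn
  have h3 : ¬ 3 ∣ M := fun h3 => by
    have := h.2.2.2 3 Nat.prime_three h3
    omega
  have hcop : Nat.Coprime 3 M := (Nat.Prime.coprime_iff_not_dvd Nat.prime_three).2 h3
  let d : ZMod 3 → ℕ := ![3, M, 1]
  have e : ∏ c, d c = 3 * M := by
    have : (Finset.univ : Finset (ZMod 3)) = {0, 1, 2} := by decide
    rw [this, Finset.prod_insert (by decide), Finset.prod_insert (by decide),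
      Finset.prod_singleton]
    show 3 * (M * 1) = 3 * M
    rw [mul_one]
  obtain ⟨i, hi⟩ := hn d e (by
    intro i j hij
    fin_cases i <;> fin_cases j
    · exact absurd rfl hij
    · exact hcop
    · exact Nat.coprime_one_right 3
    · exact hcop.symm
    · exact absurd rfl hij
    · exact Nat.coprime_one_right M
    · exact Nat.coprime_one_left 3
    · exact Nat.coprime_one_left M
    · exact absurd rfl hij) (by
    intro i p hp hd
    fin_cases i
    · have hp3 : p = 3 := (Nat.prime_dvd_prime_iff_eq hp Nat.prime_three).1 hd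
      rw [hp3]
      exact Pool.Agent.W2helper73.CC.cube_three _
    · have h4 := hc p hp hd
      unfold NonCube at h4
      rw [not_not] at h4
      obtain ⟨x, hx⟩ := h4
      refine ⟨x ^ 2, ?_⟩
      show (p : ℤ) ∣ ((1 : ℕ) : ℤ) * ((3 : ℕ) : ℤ) ^ 2 - (x ^ 2) ^ 3
      have e1 : ((1 : ℕ) : ℤ) * ((3 : ℕ) : ℤ) ^ 2 - (x ^ 2) ^ 3 = (3 - x ^ 3) * (3 + x ^ 3) := by
        push_cast
        ring
      rw [e1]
      exact Dvd.dvd.mul_right hx _
    · exact absurd (Nat.dvd_one.1 hd) hp.one_lt.ne')
  rcases (by decide : ∀ i : ZMod 3, i = 0 ∨ i = 1 ∨ i = 2) i with rfl | rfl | rfl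
  · exact h.2.1 (hi 1 (by decide))
  · exact absurd (show (3 : ℕ) = 1 from hi 0 (by decide)) (by norm_num)
  · exact absurd (show (3 : ℕ) = 1 from hi 0 (by decide)) (by norm_num)

theorem class_of_family {S : Set ℕ} {j M : ℕ} (h : Family S (j + 1) M) : InClass M := by
  obtain ⟨h1, h2, h3, -⟩ := h
  refine ⟨h1.ne_zero, ?_, fun p hp hd => ?_, fun p hp hd => (h3 p hp hd).2⟩
  · rintro rfl
    rw [Nat.primeFactors_one, Finset.card_empty] at h2
    omega
  · have h4 : p * p ∣ M := (Dvd.intro _ (by ring)).trans hd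
    exact hp.one_lt.ne' (Nat.isUnit_iff.1 (h1 p h4))

/-- In the class the algorithm tests whether there is a splitting. -/
theorem tst_class {M : ℕ} (h : InClass M) :
    Pool.Agent.W2helper73.CC.Tst (3 * M) ↔ HasNoSplitting (3 * M) := by
  rw [tst_iff]
  constructor
  · rintro ⟨N, m, h1, h2, h3, h4⟩
    have e : M = N * m ^ 3 := by
      have : 3 * M = 3 * (N * m ^ 3) := by rw [h2]; ring
      omega
    have hm : m = 1 := by
      by_contra hm
      obtain ⟨p, hp, hpm⟩ := Nat.exists_prime_and_dvd hm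
      refine h.2.2.1 p hp ?_
      rw [e]
      exact Dvd.dvd.mul_left (pow_dvd_pow_of_dvd hpm 3) N
    rw [hm, one_pow, mul_one] at e
    rw [e]
    exact h4
  · intro h1
    exact ⟨M, 1, one_ne_zero, by ring, h, h1⟩

/-- **Main theorem.** There is an algorithm `g`, halting on all natural numbers, such that:
(1) if `g A = true` then the point at infinity is the only rational point of `X³ + Y³ = A` and of
`X³ + Y³ = -A`;
(2) `g A = true` if and only if `A = 3 M m³` with `M` in the class, such that `3 M` has no splitting;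
(3) then the curve `y² + 3 M y = x³` has finitely many rational points, the power of `3` in their number
is `3`, and the `3`-primary part of its Tate-Shafarevich group is zero;
(4) for every `k = j + 1 ≥ 1` and every set `S` of primes which is rich the number of the members
`M ≤ X` of the family has the order of magnitude `X (log log X)^j / log X`, and the proportion of those
with `g (3 M) = true` tends to `∏_{1 ≤ i ≤ j} (1 - 3^{-i})`;
(5) the set of all primes is rich;
(6) if `M` is in the class and `3` is a cube modulo all its prime factors, then `g (3 M) = false`. -/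
theorem result :
    ∃ g : ℕ → Bool, Computable g ∧
      (∀ A : ℕ, g A = true → A ≠ 0 ∧ OnlyInfinity A ∧ OnlyInfinity (-A)) ∧
      (∀ A : ℕ, g A = true ↔
        ∃ M m : ℕ, m ≠ 0 ∧ A = 3 * M * m ^ 3 ∧ InClass M ∧ HasNoSplitting (3 * M)) ∧
      (∀ M : ℕ, InClass M → HasNoSplitting (3 * M) → TrivialThree (3 * M)) ∧
      (∀ (S : Set ℕ) (j : ℕ), Rich S → Size (Family S (j + 1)) j ∧
        Share g (Family S (j + 1)) (∏ i ∈ range j, (1 - (1 / 3 : ℝ) ^ (i + 1)))) ∧
      Rich {p | p.Prime} ∧
      ∀ M : ℕ, InClass M → (∀ p : ℕ, p.Prime → p ∣ M → ¬ NonCube p) → g (3 * M) = false := by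
  classical
  obtain ⟨hd, hcomp⟩ := Pool.Agent.W2helper73.CC.tst_computable
  refine ⟨fun A => decide (Pool.Agent.W2helper73.CC.Tst A), hcomp, fun A h => ?_, fun A => ?_,
    fun M h1 h2 => trivial_of h1 h2, fun S j hS => ⟨?_, ?_⟩, ?_, fun M hM hc => ?_⟩
  · rw [decide_eq_true_iff] at h
    refine ⟨?_, fun X Y he => (Pool.Agent.W2helper73.CC.sound h X Y).1 (by rw [he]; norm_num),
      fun X Y he => (Pool.Agent.W2helper73.CC.sound h X Y).2 (by rw [he]; push_cast; ring)⟩
    obtain ⟨M, m, h1, h2, h3, -⟩ := (tst_iff A).1 h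
    rw [h2]
    exact Nat.mul_ne_zero (Nat.mul_ne_zero (by norm_num) h3.1) (pow_ne_zero 3 h1)
  · rw [decide_eq_true_iff, tst_iff]
  · obtain ⟨c, C, X₀, hc, hC, h⟩ := Pool.Agent.W2helper73.CC.N_size j ((rich_iff S).1 hS)
    refine ⟨c, C, X₀, hc, hC, fun X hX => ?_⟩
    have e : count (Family S (j + 1)) X = ((Icc 1 X).filter fun N =>
        Pool.Agent.W2helper73.CC.Fam (fun p => p ∈ S) (j + 1) N).card := by
      rw [count_eq]
      congr 1
      ext N
      simp only [mem_filter, fam_iff]
    rw [e]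
    have h1 := h X hX
    convert h1 using 3
  · refine (Pool.Agent.W2helper73.CC.N_law j ((rich_iff S).1 hS)).congr fun X => ?_
    have e : count (Family S (j + 1)) X = ((Icc 1 X).filter fun N =>
        Pool.Agent.W2helper73.CC.Fam (fun p => p ∈ S) (j + 1) N).card := by
      rw [count_eq]
      congr 1
      ext N
      simp only [mem_filter, fam_iff]
    have e' : count (fun M => Family S (j + 1) M ∧
        decide (Pool.Agent.W2helper73.CC.Tst (3 * M)) = true) X = ((Icc 1 X).filter fun N =>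
        Pool.Agent.W2helper73.CC.Fam (fun p => p ∈ S) (j + 1) N ∧
          Pool.Agent.Y703.CT.NoSplit (3 * N)).card := by
      rw [count_eq]
      congr 1
      ext N
      simp only [mem_filter, decide_eq_true_iff]
      refine and_congr_right fun _ => ?_
      rw [← fam_iff]
      exact and_congr_right fun h => tst_class (class_of_family h)
    rw [e, e']
  · rw [rich_iff]
    refine Pool.Agent.W2helper73.CC.dn_mono (fun p hp => ?_) Pool.Agent.W2helper73.CC.rich_all
    exact ⟨⟨hp.1.2.1, hp.1.2⟩, hp.2⟩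
  · rw [decide_eq_false_iff_not, tst_class hM]
    exact splits_of hM hc

end Pool.Agent.Results.MP_8e0b0b_nt.TwistsDivisibleByThree
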